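import Pool.Agent.H61.KW.TA

/-!
# Kuiper board KW, row TTT (helper47)
-/

set_option autoImplicit false

open Set

namespace Pool.Agent.H47.KW.TTT

open Pool.Agent.H61.KV Pool.Agent.H61.KW

theorem aux (h : T_DSB) (h2 : T_XOU) {V : Type} [NormedAddCommGroup V] [NormedSpace ℝ V]
    [FiniteDimensional ℝ V] {C : Set V} {q a z a' z' : V} (hC : IsCC C) (hq : q ∈ C)
    (P : Pyr C q a z) (P' : Pyr C q a' z') (hz : z ∈ Fc C z') : a' ∈ Fc C a := by
  have ha : a ∈ C := P.ds.1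
  have ha' : a' ∈ C := P'.ds.1
  have hzC : z ∈ C := P.ex.1
  have hzC' : z' ∈ C := P'.ex.1
  by_contra hna
  obtain ⟨x, hx, hxa', hxa⟩ := h2 V C (Fc C a) a' hC ha' (zero_fc hC ha)
    (fun r hr s hs => add_fc hC ha hr hs) hna
  have haq : a' ∈ Fc C q := tra hC hq P'.mem (left_fc hC ha' hzC')
  have hxq : x ∈ Fc C q := tra hC hq haq hxa'
  have hxs : x ∈ Fc C (a + z) := tra hC (hC.add a ha z hzC) P.mem' hxq
  rcases (h V C a z hC P.ds).2.2.2.2.2 x hx hxs with h6 | h6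
  · exact hxa h6
  · have h7 : x ∈ Fc C z' := tra hC hzC' hz h6
    exact hx.2.1 (P'.ds.2.2.1 x (mem_sp hxa') (mem_sp h7))

theorem pf_TTT (h : T_DSB) (h2 : T_XOU) (h3 : T_SM2) (h4 : T_SMD) (h5 : T_FIN) : T_TTT := by
  intro V _ _ _ C q a z a' z' hC hq P P' hn
  have ha : a ∈ C := P.ds.1
  have ha' : a' ∈ C := P'.ds.1
  have hzC : z ∈ C := P.ex.1
  have hzC' : z' ∈ C := P'.ex.1
  by_cases hz : z' ∈ Fc C z
  · have hz2 : z ∈ Fc C z' := ex_symm hC P.ex P'.ex hz
    exact ⟨hz, aux h h2 hC hq P P' hz2, aux h h2 hC hq P' P hz⟩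
  · exfalso
    apply hn
    have hzq' : z' ∈ Fc C q := tra hC hq P'.mem (right_fc hC ha' hzC')
    have haq : a ∈ Fc C q := tra hC hq P.mem (left_fc hC ha hzC)
    have hz'a : z' ∈ Fc C a := by
      rcases (h V C a z hC P.ds).2.2.2.2.2 z' P'.ex
        (tra hC (hC.add a ha z hzC) P.mem' hzq') with h6 | h6
      · exact h6
      · exact absurd h6 hz
    obtain ⟨e, he, hee⟩ := h5 V C a a' hC ha ha'
    have hea : e ∈ Fc C a ∧ e ∈ Fc C a' := (hee e).1 (self hC he)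
    obtain ⟨u, hu, v, hv, huv⟩ := P'.ds.2.2.2 a
      (tra hC (hC.add a' ha' z' hzC') P'.mem' haq)
    have hua : u ∈ Fc C a := by
      have h7 : u + v ∈ Fc C a := by
        rw [← huv]
        exact self hC ha
      exact (face hC ha (mem_C hu) (mem_C hv) h7).1
    have hue : u ∈ Fc C e := (hee u).2 ⟨hua, hu⟩
    have hezC : e + z' ∈ C := hC.add e he z' hzC'
    have haez : a ∈ Fc C (e + z') := by
      rw [huv]
      exact add_fc hC hezC (tra hC hezC (left_fc hC he hzC') hue)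
        (tra hC hezC (right_fc hC he hzC') hv)
    have hez : e + z' ∈ Fc C a := add_fc hC ha hea.1 hz'a
    have hD : Dsum C e z' := (h V C a' z' hC P'.ds).2.2.1 e hea.2 z' (self hC hzC')
    have hrk : rk C e = 2 := by
      have h8 := rk_congr hC ha hez haez
      rw [(h V C e z' hC hD).1, ex_rk hC P'.ex, P.rk3] at h8
      omega
    have s2 : Smp C 2 e := (h3 V C e hC he).2.1 hrk
    have s1 : Smp C 1 z' := (h3 V C z' hC hzC').1 P'.ex
    have s3 : Smp C (2 + 1) a := h4 V C e z' a 2 1 hC hD s2 s1 ha haez hez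
    exact (h3 V C q hC hq).2.2.1 a z P s3

end Pool.Agent.H47.KW.TTT
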