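import Pool.Agent.H61.KW.TA

/-!
# Kuiper board KW, row TWO (helper47)
-/

set_option autoImplicit false

open Set

namespace Pool.Agent.H47.KW.TWO

open Pool.Agent.H61.KV Pool.Agent.H61.KW

theorem sp_ex {V : Type} [NormedAddCommGroup V] [NormedSpace ℝ V] {C : Set V} {x : V}
    (hx : Ex C x) : Sp C x ≤ Submodule.span ℝ {x} := by
  refine Submodule.span_le.2 ?_
  intro r hr
  obtain ⟨c, rfl⟩ := hx.2.2 r hr
  exact Submodule.smul_mem _ _ (Submodule.mem_span_singleton_self x)

theorem sign {V : Type} [NormedAddCommGroup V] [NormedSpace ℝ V] [FiniteDimensional ℝ V]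
    {C : Set V} {x y r : V} (hC : IsCC C) (hx : Ex C x) (hy : Ex C y) (hxy : x ∉ Fc C y)
    (hr : r ∈ C) {a b : ℝ} (e : r = a • x + b • y) : 0 ≤ a := by
  by_contra ha
  push Not at ha
  have hax : (-a) • x ∈ C := hC.smul _ (by linarith) _ hx.1
  have hrx : r + (-a) • x = b • y := by
    rw [e, neg_smul]
    abel
  rcases le_or_gt b 0 with hb | hb
  · have hby : (-b) • y ∈ C := hC.smul _ (by linarith) _ hy.1
    have h0 : (r + (-a) • x) + (-b) • y = 0 := by
      rw [hrx, neg_smul]
      abel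
    have h1 := (sum_eq_zero hC (hC.add _ hr _ hax) hby h0).1
    have h2 := (sum_eq_zero hC hr hax h1).2
    rcases smul_eq_zero.1 h2 with h3 | h3
    · linarith
    · exact hx.2.1 h3
  · have h1 : r + (-a) • x ∈ Fc C y := by
      rw [hrx]
      exact smul_fc hC hy.1 hb.le (self hC hy.1)
    have h2 := (face hC hy.1 hr hax h1).2
    exact hxy (smul_mem hC hy.1 (by linarith) h2)

theorem pf_TWO (h : T_XSP) : T_TWO := by
  intro V _ _ _ C q hC hq hrk
  obtain ⟨x, hx, hxq, -⟩ := h V C q ⊥ hC hq (by rw [finrank_bot, hrk]; norm_num)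
  obtain ⟨y, hy, hyq, hyx⟩ := h V C q (Submodule.span ℝ {x}) hC hq (by
    rw [finrank_span_singleton hx.2.1, hrk]; norm_num)
  have hyx' : y ∉ Fc C x := by
    intro h1
    obtain ⟨c, rfl⟩ := hx.2.2 y h1
    exact hyx (Submodule.smul_mem _ _ (Submodule.mem_span_singleton_self x))
  have hxy' : x ∉ Fc C y := fun h1 => hyx' (ex_symm hC hy hx h1)
  have hxyC : x + y ∈ C := hC.add x hx.1 y hy.1
  have hsq : x + y ∈ Fc C q := add_fc hC hq hxq hyq
  have hq2 : q ∈ Fc C (x + y) := by
    apply of_rk hC hq hsq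
    have := rk_add_ex hC hx.1 hy.1 hyx'
    rw [ex_rk hC hx] at this
    omega
  have hdisj : ∀ v, v ∈ Sp C x → v ∈ Sp C y → v = 0 := by
    intro v hv1 hv2
    obtain ⟨a, rfl⟩ := Submodule.mem_span_singleton.1 (sp_ex hx hv1)
    obtain ⟨b, hb⟩ := Submodule.mem_span_singleton.1 (sp_ex hy hv2)
    by_contra h0
    have hb0 : b ≠ 0 := by
      rintro rfl
      rw [zero_smul] at hb
      exact h0 hb.symm
    apply hyx
    have : y = b⁻¹ • (a • x) := by
      rw [← hb, smul_smul, inv_mul_cancel₀ hb0, one_smul]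
    rw [this]
    exact Submodule.smul_mem _ _ (Submodule.smul_mem _ _ (Submodule.mem_span_singleton_self x))
  have hli : LinearIndependent ℝ ![x, y] := by
    rw [LinearIndependent.pair_iff]
    intro s t hst
    have hv1 : s • x ∈ Sp C x := Submodule.smul_mem _ _ (self_sp hC hx.1)
    have hv2 : s • x ∈ Sp C y := by
      have : s • x = (-t) • y := by
        rw [neg_smul]
        exact eq_neg_of_add_eq_zero_left hst
      rw [this]
      exact Submodule.smul_mem _ _ (self_sp hC hy.1)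
    have h0 := hdisj _ hv1 hv2
    have hs : s = 0 := (smul_eq_zero.1 h0).resolve_right hx.2.1
    refine ⟨hs, ?_⟩
    rw [hs, zero_smul, zero_add] at hst
    exact (smul_eq_zero.1 hst).resolve_right hy.2.1
  have hspan : Submodule.span ℝ (Set.range ![x, y]) = Sp C q := by
    apply Submodule.eq_of_le_of_finrank_le
    · rw [Submodule.span_le]
      rintro _ ⟨i, rfl⟩
      fin_cases i
      · exact mem_sp hxq
      · exact mem_sp hyq
    · rw [finrank_span_eq_card hli, Fintype.card_fin]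
      exact hrk.le
  refine ⟨x, y, hx, hy, ⟨hx.1, hy.1, hdisj, ?_⟩, hsq, hq2⟩
  intro r hr
  have hrq : r ∈ Sp C q := mem_sp (tra hC hq hsq hr)
  rw [← hspan, Matrix.range_cons, Matrix.range_cons, Matrix.range_empty, Set.union_empty,
    Set.singleton_union, Submodule.mem_span_pair] at hrq
  obtain ⟨a, b, hab⟩ := hrq
  have hrC : r ∈ C := mem_C hr
  have ha : 0 ≤ a := sign hC hx hy hxy' hrC hab.symm
  have hb : 0 ≤ b := sign (a := b) (b := a) hC hy hx hyx' hrC (by rw [← hab]; abel)
  exact ⟨a • x, smul_fc hC hx.1 ha (self hC hx.1), b • y, smul_fc hC hy.1 hb (self hC hy.1),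
    hab.symm⟩

end Pool.Agent.H47.KW.TWO
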