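import Pool.Agent.H61.KW.TA

/-!
# Kuiper board KW, row X5L (helper47)
-/

set_option autoImplicit false

open Set

namespace Pool.Agent.H47.KW.X5L

open Pool.Agent.H61.KV Pool.Agent.H61.KW

theorem pf_X5L (h : T_DSB) : T_X5L := by
  intro V _ _ _ C a z y f g u hC hz hy hD hzy hf h1 h2 hu hg hfu
  have ha : a ∈ C := hD.1
  have hw : z + y ∈ C := hD.2.1
  have hq0 : a + (z + y) ∈ C := hC.add a ha _ hw
  have hg0 : g ∈ Fc C (a + (z + y)) := tra hC hq0 h2 hg
  obtain ⟨b, hb, w, hwm, hgbw⟩ := hD.2.2.2 g hg0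
  have hgC : g ∈ C := mem_C hg
  have hbC : b ∈ C := mem_C hb
  have hwC : w ∈ C := mem_C hwm
  have huC : u ∈ C := mem_C hu
  have hbw : b ∈ Fc C g ∧ w ∈ Fc C g := by
    apply face hC hgC hbC hwC
    rw [← hgbw]
    exact self hC hgC
  obtain ⟨-, -, -, hD4, hD5, -⟩ := h V C a (z + y) hC hD
  have hbu : b + u ∈ Fc C a := add_fc hC ha hb hu
  have hgu : g + u ∈ C := hC.add g hgC u huC
  have e1 : g + u = (b + u) + w := by rw [hgbw]; abel
  have haf : a ∈ Fc C f := tra hC hf h1 (left_fc hC ha hw)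
  have hzf : z + y ∈ Fc C f := tra hC hf h1 (right_fc hC ha hw)
  have hab : a ∈ Fc C (b + u) := by
    apply hD4 (b + u) hbu w hwm a (self hC ha)
    rw [← e1]
    exact tra hC hgu hfu haf
  have hzw : z + y ∈ Fc C w := by
    apply hD5 (b + u) hbu w hwm (z + y) (self hC hw)
    rw [← e1]
    exact tra hC hgu hfu hzf
  have hzg : z + y ∈ Fc C g := tra hC hgC hbw.2 hzw
  have hDb : Dsum C b (z + y) := (h V C a (z + y) hC hD).2.2.1 b hb (z + y) (self hC hw)
  have hbz : b + (z + y) ∈ C := hC.add b hbC _ hw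
  have hgb : g ∈ Fc C (b + (z + y)) := by
    rw [hgbw]
    exact add_fc hC hbz (left_fc hC hbC hw) (tra hC hbz (right_fc hC hbC hw) hwm)
  have hbg : b + (z + y) ∈ Fc C g := add_fc hC hgC hbw.1 hzg
  refine ⟨b, hbw.1, hb, hab, ?_, hDb, hbg, hgb, ?_, ?_⟩
  · rw [← rk_congr hC hgC hbg hgb, (h V C b (z + y) hC hDb).1, (h V C z y hC hzy).1,
      ex_rk hC hz, ex_rk hC hy]
  · exact tra hC hgC hzg (left_fc hC hz.1 hy.1)
  · exact tra hC hgC hzg (right_fc hC hz.1 hy.1)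

end Pool.Agent.H47.KW.X5L
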